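import Pool.Agent.K7.H61.OP.SUB

set_option autoImplicit false

/-! Job EXT of project OP. -/

namespace Pool.Agent.K7.H4.OPEXT

open Pool.Agent.K7.H41.OP Pool.Agent.K7.H61.OP

/-! ### central homomorphisms -/

section cen

variable {A C : Type} [Group A] [Group C]

theorem cen_comm {ρ : C →* A} (h : Cen ρ) (c : C) (a : A) : Commute (ρ c) a :=
  (Subgroup.mem_center_iff.1 (h c) a).symm

theorem exmul {ρ σ : C →* A} (hρ : Cen ρ) (hσ : Cen σ) :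
    ∃ τ : C →* A, Cen τ ∧ ∀ a, τ a = ρ a * σ a := by
  refine ⟨MonoidHom.mk' (fun a => ρ a * σ a) fun a b => ?_, fun a => mul_mem (hρ a) (hσ a),
    fun a => rfl⟩
  show ρ (a * b) * σ (a * b) = ρ a * σ a * (ρ b * σ b)
  rw [map_mul, map_mul]
  calc ρ a * ρ b * (σ a * σ b) = ρ a * (ρ b * σ a) * σ b := by simp only [mul_assoc]
    _ = ρ a * (σ a * ρ b) * σ b := by rw [(cen_comm hρ b (σ a)).eq]
    _ = _ := by simp only [mul_assoc]

theorem expow {ρ : C →* A} (hρ : Cen ρ) (n : ℕ) : ∃ τ : C →* A, Cen τ ∧ ∀ a, τ a = ρ a ^ n := by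
  refine ⟨MonoidHom.mk' (fun a => ρ a ^ n) fun a b => ?_, fun a => pow_mem (hρ a) n,
    fun a => rfl⟩
  show ρ (a * b) ^ n = ρ a ^ n * ρ b ^ n
  rw [map_mul, (cen_comm hρ a (ρ b)).mul_pow]

theorem exinv {ρ : C →* A} (hρ : Cen ρ) : ∃ τ : C →* A, Cen τ ∧ ∀ a, τ a = (ρ a)⁻¹ := by
  refine ⟨MonoidHom.mk' (fun a => (ρ a)⁻¹) fun a b => ?_, fun a => inv_mem (hρ a),
    fun a => rfl⟩
  show (ρ (a * b))⁻¹ = (ρ a)⁻¹ * (ρ b)⁻¹
  rw [map_mul, mul_inv_rev, ((cen_comm hρ b (ρ a)).inv_inv).eq]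

theorem exleft (k : MulAut A) {ρ : C →* A} (hρ : Cen ρ) :
    ∃ τ : C →* A, Cen τ ∧ ∀ a, τ a = k (ρ a) :=
  ⟨(k : A ≃* A).toMonoidHom.comp ρ, fun a => map_center k (hρ a), fun a => rfl⟩

theorem exright (k : MulAut C) {ρ : C →* A} (hρ : Cen ρ) :
    ∃ τ : C →* A, Cen τ ∧ ∀ a, τ a = ρ (k a) :=
  ⟨ρ.comp (k : C ≃* C).toMonoidHom, fun a => hρ (k a), fun a => rfl⟩

end cen

section main

variable {A B : Type} [Group A] [Group B]

/-- the component `A → A` is `k` times an `m`-th power of a central homomorphism -/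
def R (m : ℕ) (φ : MulAut (A × B)) (k : MulAut A) : Prop :=
  ∃ ρ : A →* A, Cen ρ ∧ ∀ a, al φ a = k (a * ρ a ^ m)

theorem al_mul (φ ψ : MulAut (A × B)) (a : A) :
    al (φ * ψ) a = al φ (al ψ a) * be φ (ga ψ a) := by
  have h : ψ (a, 1) = (al ψ a, 1) * (1, ga ψ a) := by
    simp [al, ga]
  show (φ (ψ (a, 1))).1 = _
  rw [h, map_mul]
  rfl

/-- uniqueness -/
theorem R_unique {m : ℕ} {K : Subgroup (MulAut A)} (hB : Big K m) {φ : MulAut (A × B)}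
    {k k' : MulAut A} (h : R m φ k) (h' : R m φ k') : k'⁻¹ * k ∈ K := by
  obtain ⟨ρ, hρ, e⟩ := h
  obtain ⟨ρ', hρ', e'⟩ := h'
  obtain ⟨τ1, c1, f1⟩ := exleft (k'⁻¹ * k) hρ
  obtain ⟨τ2, c2, f2⟩ := exinv c1
  obtain ⟨τ3, c3, f3⟩ := exmul hρ' c2
  refine hB (k'⁻¹ * k) τ3 c3 fun a => ?_
  have e1 : k (a * ρ a ^ m) = k' (a * ρ' a ^ m) := by rw [← e, ← e']
  have e2 : (k'⁻¹ * k) (a * ρ a ^ m) = a * ρ' a ^ m := by
    rw [MulAut.mul_apply, e1, MulAut.inv_apply_self]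
  rw [map_mul, map_pow, ← f1] at e2
  have e3 : (k'⁻¹ * k) a = a * ρ' a ^ m * (τ1 a ^ m)⁻¹ := by
    rw [← e2, mul_inv_cancel_right]
  rw [e3, f3, f2, (cen_comm hρ' a _).mul_pow, inv_pow, mul_assoc]

/-- products -/
theorem R_mul {m M : ℕ} (hM : m ∣ M) {φ ψ : MulAut (A × B)} {k k' : MulAut A}
    (h : R m φ k) (h' : R m ψ k')
    (h3 : ∃ ρ : A →* A, Cen ρ ∧ ∀ a, be φ (ga ψ a) = ρ a ^ M) : R m (φ * ψ) (k * k') := by
  obtain ⟨ρ, hρ, e⟩ := h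
  obtain ⟨ρ', hρ', e'⟩ := h'
  obtain ⟨ρ3, hρ3, e3⟩ := h3
  obtain ⟨q, rfl⟩ := hM
  -- `g a = k' (a ρ'(a)^m)`
  obtain ⟨p1, p2, p3⟩ : ∃ τ : A →* A, Cen τ ∧ ∀ a, τ a = ρ (al ψ a) :=
    ⟨ρ.comp (al ψ), fun a => hρ _, fun a => rfl⟩
  obtain ⟨q1, q2, q3⟩ := exleft k'⁻¹ p2
  obtain ⟨r1, r2, r3⟩ := exleft (k * k')⁻¹ hρ3
  obtain ⟨s1, s2, s3⟩ := expow r2 q
  obtain ⟨t1, t2, t3⟩ := exmul hρ' q2
  obtain ⟨u1, u2, u3⟩ := exmul t2 s2
  refine ⟨u1, u2, fun a => ?_⟩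
  have g1 : (k * k') (a * u1 a ^ m) =
      (k * k') (a * ρ' a ^ m) * (k * k') (q1 a ^ m) * (k * k') (s1 a ^ m) := by
    rw [← map_mul, ← map_mul, u3, (cen_comm t2 a _).mul_pow, t3, (cen_comm hρ' a _).mul_pow]
    simp only [mul_assoc]
  have g2 : (k * k') (a * ρ' a ^ m) = k (al ψ a) := by rw [MulAut.mul_apply, ← e']
  have g3 : (k * k') (q1 a ^ m) = k (ρ (al ψ a) ^ m) := by
    rw [MulAut.mul_apply, map_pow, q3, MulAut.apply_inv_self, p3]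
  have g4 : (k * k') (s1 a ^ m) = ρ3 a ^ (m * q) := by
    rw [map_pow, s3, map_pow, r3, MulAut.apply_inv_self, ← pow_mul, mul_comm q m]
  rw [g1, g2, g3, g4, al_mul, e, e3, ← map_mul]

theorem pm_fst {m : ℕ} {x : A × B} (h : Pm (A × B) m x) : Pm A m x.1 := by
  obtain ⟨y, hy⟩ := h
  refine ⟨y.1, ?_⟩
  have h1 := Subgroup.mem_map_of_mem (MonoidHom.fst A B) hy
  have h2 : (commutator (A × B)).map (MonoidHom.fst A B) ≤ commutator A := by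
    rw [commutator_def, commutator_def, Subgroup.map_commutator]
    exact Subgroup.commutator_mono le_top le_top
  exact h2 h1

theorem pm_snd {m : ℕ} {x : A × B} (h : Pm (A × B) m x) : Pm B m x.2 := by
  obtain ⟨y, hy⟩ := h
  refine ⟨y.2, ?_⟩
  have h1 := Subgroup.mem_map_of_mem (MonoidHom.snd A B) hy
  have h2 : (commutator (A × B)).map (MonoidHom.snd A B) ≤ commutator B := by
    rw [commutator_def, commutator_def, Subgroup.map_commutator]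
    exact Subgroup.commutator_mono le_top le_top
  exact h2 h1

theorem pm_dvd {G : Type} [Group G] {m M : ℕ} (hM : m ∣ M) {x : G} (h : Pm G M x) : Pm G m x := by
  obtain ⟨q, rfl⟩ := hM
  obtain ⟨y, hy⟩ := h
  refine ⟨y ^ q, ?_⟩
  rwa [← pow_mul, mul_comm q m]

end main

/-- JOB EXT -/
theorem ext (hBij : StBij) (hDiv : StDiv) (hMod : StMod) : StExt := by
  intro A B _ _ hA hB D K m hm hKn hKf hKi hBig H0 hH0 hH0f
  obtain ⟨tB, htB, hdiv⟩ := hDiv B hB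
  have hD1 := D.hc
  have hD2 := D.ht
  obtain ⟨M, hM⟩ : ∃ M, M = D.c ^ 2 * m * D.t * tB := ⟨_, rfl⟩
  have hM0 : 0 < M := by rw [hM]; positivity
  have hmM : m ∣ M := by rw [hM]; exact ⟨D.c ^ 2 * D.t * tB, by ring⟩
  have htM : tB ∣ M := by rw [hM]; exact ⟨D.c ^ 2 * m * D.t, by ring⟩
  have hcM : D.c ^ 2 * m * D.t ∣ M := by rw [hM]; exact ⟨tB, by ring⟩
  have hAB : Group.FG (A × B) := by
    have := hA
    have := hB
    infer_instance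
  obtain ⟨HM, hMf, hMi, hMm⟩ := hMod (A × B) hAB M hM0
  obtain ⟨Hs, hs1, hs2⟩ := sub A B
  have hH0i : Inn (A × B) ≤ H0 := fun φ hφ => (hH0 φ).2 ((hs1 φ).1 (hs2 hφ))
  -- the subgroup on which the class is defined
  have f1 := hH0f
  have f2 := hMf
  have f3 := hKf
  have f4 := hKn
  have ex : ∀ φ : MulAut (A × B), φ ∈ H0 ⊓ HM → ∃ k : MulAut A, R m φ k := by
    intro φ hφ
    have h1 := (hH0 φ).1 hφ.1
    have h2 := (hMm φ).1 hφ.2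
    obtain ⟨k, ρ, h3, h4⟩ := hBij A B D m hm φ h1 (fun a => by
      have h5 := pm_dvd hcM (pm_fst (h2 (a, 1)))
      exact h5)
    exact ⟨k, ρ, h3, h4⟩
  choose! κ hκ using ex
  have hmul : ∀ φ ψ : MulAut (A × B), φ ∈ H0 ⊓ HM → ψ ∈ H0 ⊓ HM →
      R m (φ * ψ) (κ φ * κ ψ) := by
    intro φ ψ hφ hψ
    refine R_mul hmM (hκ φ hφ) (hκ ψ hψ) ?_
    refine hdiv M htM hM0 A (ga ψ) (be φ) (fun a => ?_) ((hH0 φ).1 hφ.1).1.1
    have h1 := pm_snd ((hMm ψ).1 hψ.2 (a, 1))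
    have h2 : (ψ (a, 1) * (a, 1)⁻¹ : A × B).2 = ga ψ a := by
      simp [ga]
    rwa [h2] at h1
  let f : ↥(H0 ⊓ HM) →* MulAut A ⧸ K := MonoidHom.mk' (fun φ => (κ φ.1 : MulAut A ⧸ K)) (by
    intro φ ψ
    show ((κ (φ.1 * ψ.1) : MulAut A) : MulAut A ⧸ K) = (κ φ.1 : MulAut A ⧸ K) * (κ ψ.1 : MulAut A ⧸ K)
    rw [← QuotientGroup.mk_mul]
    refine QuotientGroup.eq.2 ?_
    exact R_unique hBig (hmul φ.1 ψ.1 φ.2 ψ.2) (hκ (φ.1 * ψ.1) (mul_mem φ.2 ψ.2)))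
  have hf : ∀ (φ : MulAut (A × B)) (h : φ ∈ H0 ⊓ HM) (k : MulAut A), R m φ k →
      f ⟨φ, h⟩ = (k : MulAut A ⧸ K) := by
    intro φ h k hk
    show ((κ φ : MulAut A) : MulAut A ⧸ K) = (k : MulAut A ⧸ K)
    refine QuotientGroup.eq.2 ?_
    exact R_unique hBig hk (hκ φ h)
  have hfin : Finite (MulAut A ⧸ K) := inferInstance
  have hker : f.ker.FiniteIndex := by
    have : Finite (f.range) := inferInstance
    infer_instance
  refine ⟨f.ker.map (H0 ⊓ HM).subtype, ?_, ?_, ?_⟩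
  · intro φ hφ
    have h1 : φ ∈ H0 ⊓ HM := ⟨hH0i hφ, hMi hφ⟩
    refine ⟨⟨φ, h1⟩, ?_, rfl⟩
    obtain ⟨⟨a0, b0⟩, rfl⟩ := hφ
    have h2 : R m (MulAut.conj ((a0, b0) : A × B)) (MulAut.conj a0) :=
      ⟨1, fun a => one_mem _, fun a => by simp [al, MulAut.conj_apply]⟩
    show f _ = 1
    rw [hf _ h1 _ h2]
    exact (QuotientGroup.eq_one_iff _).2 (hKi ⟨a0, rfl⟩)
  · have h1 : (f.ker.map (H0 ⊓ HM).subtype).relIndex (H0 ⊓ HM) ≠ 0 := by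
      rw [Subgroup.relIndex, Subgroup.subgroupOf,
        Subgroup.comap_map_eq_self_of_injective (Subgroup.subtype_injective _)]
      exact hker.index_ne_zero
    have h2 : (H0 ⊓ HM).index ≠ 0 := Subgroup.FiniteIndex.index_ne_zero
    have h3 := Subgroup.relIndex_mul_index (H := f.ker.map (H0 ⊓ HM).subtype) (K := H0 ⊓ HM) (by
      rintro _ ⟨x, -, rfl⟩
      exact x.2)
    refine ⟨?_⟩
    rw [← h3]
    exact mul_ne_zero h1 h2
  · intro α δ h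
    obtain ⟨⟨φ, hφ⟩, h1, h2⟩ := h
    have h2' : φ = (MulEquiv.prodCongr α δ : MulAut (A × B)) := h2
    subst h2'
    have h3 : R m (MulEquiv.prodCongr α δ : MulAut (A × B)) α :=
      ⟨1, fun a => one_mem _, fun a => by
        rw [MonoidHom.one_apply, one_pow, mul_one]
        rfl⟩
    have h4 : f ⟨_, hφ⟩ = 1 := h1
    rw [hf _ hφ _ h3] at h4
    exact (QuotientGroup.eq_one_iff _).1 h4

end Pool.Agent.K7.H4.OPEXT
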