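import Pool.Agent.K7.H41.OP.Stm

set_option autoImplicit false

/-! Job POW of project OP. -/

namespace Pool.Agent.K7.H4.OP

open Pool.Agent.K7.H41.OP

section

variable {A : Type} [Group A] (x : A →* A)

/-- `a ↦ a x(a)^i x(x(a))^j` -/
def T (i j : ℤ) (a : A) : A := a * x a ^ i * x (x a) ^ j

variable {x}

theorem T_mul (hc : Cen x) (i j : ℤ) (a b : A) : T x i j (a * b) = T x i j a * T x i j b := by
  have c1 : ∀ u v : A, Commute (x u) v := fun u v => by
    have := Subgroup.mem_center_iff.1 (hc u) v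
    exact this.symm
  unfold T
  rw [map_mul, map_mul, (c1 a (x b)).mul_zpow, (c1 (x a) (x (x b))).mul_zpow]
  have e1 : Commute (x a ^ i) b := (c1 a b).zpow_left i
  have e2 : Commute (x (x a) ^ j) (b * x b ^ i) := (c1 (x a) _).zpow_left j
  calc a * b * (x a ^ i * x b ^ i) * (x (x a) ^ j * x (x b) ^ j)
      = a * (b * x a ^ i) * x b ^ i * x (x a) ^ j * x (x b) ^ j := by simp only [mul_assoc]
    _ = a * (x a ^ i * b) * x b ^ i * x (x a) ^ j * x (x b) ^ j := by rw [e1.eq]
    _ = a * x a ^ i * ((b * x b ^ i) * x (x a) ^ j) * x (x b) ^ j := by simp only [mul_assoc]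
    _ = a * x a ^ i * (x (x a) ^ j * (b * x b ^ i)) * x (x b) ^ j := by rw [e2.eq]
    _ = _ := by simp only [mul_assoc]

theorem T_T (hc : Cen x) (h3 : ∀ a, x (x (x a)) = 1) (i j k l : ℤ) (a : A) :
    T x i j (T x k l a) = T x (i + k) (j + l + i * k) a := by
  have c1 : ∀ u v : A, Commute (x u) v := fun u v => by
    have := Subgroup.mem_center_iff.1 (hc u) v
    exact this.symm
  have e1 : x (T x k l a) = x a * x (x a) ^ k := by
    unfold T
    rw [map_mul, map_mul, map_zpow, map_zpow, h3, one_zpow, mul_one]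
  have e2 : x (x (T x k l a)) = x (x a) := by
    rw [e1, map_mul, map_zpow, h3, one_zpow, mul_one]
  have e3 : Commute (x (x a) ^ l) (x a ^ i) := ((c1 (x a) (x a)).zpow_left l).zpow_right i
  show T x k l a * x (T x k l a) ^ i * x (x (T x k l a)) ^ j = _
  rw [e2, e1, ((c1 a (x (x a) ^ k))).mul_zpow]
  unfold T
  calc a * x a ^ k * x (x a) ^ l * (x a ^ i * (x (x a) ^ k) ^ i) * x (x a) ^ j
      = a * x a ^ k * (x (x a) ^ l * x a ^ i) * (x (x a) ^ k) ^ i * x (x a) ^ j := by
        simp only [mul_assoc]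
    _ = a * x a ^ k * (x a ^ i * x (x a) ^ l) * (x (x a) ^ k) ^ i * x (x a) ^ j := by
        rw [e3.eq]
    _ = a * x a ^ (i + k) * x (x a) ^ (j + l + i * k) := by
        rw [← zpow_mul, add_comm i k, zpow_add, show j + l + i * k = l + k * i + j by ring,
          zpow_add, zpow_add]
        simp only [mul_assoc]

theorem T_zero (a : A) : T x 0 0 a = a := by
  unfold T
  rw [zpow_zero, zpow_zero, mul_one, mul_one]

/-- the automorphism `T` -/
def M (hc : Cen x) (h3 : ∀ a, x (x (x a)) = 1) (i j : ℤ) : MulAut A :=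
  { toFun := T x i j
    invFun := T x (-i) (i ^ 2 - j)
    left_inv := fun a => by
      rw [T_T hc h3]
      have e1 : -i + i = 0 := by ring
      have e2 : i ^ 2 - j + j + -i * i = 0 := by ring
      rw [e1, e2, T_zero]
    right_inv := fun a => by
      rw [T_T hc h3]
      have e1 : i + -i = 0 := by ring
      have e2 : j + (i ^ 2 - j) + i * -i = 0 := by ring
      rw [e1, e2, T_zero]
    map_mul' := T_mul hc i j }

theorem M_apply (hc : Cen x) (h3 : ∀ a, x (x (x a)) = 1) (i j : ℤ) (a : A) :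
    M hc h3 i j a = T x i j a := rfl

theorem M_pow (hc : Cen x) (h3 : ∀ a, x (x (x a)) = 1) (j : ℤ) (n : ℕ) (a : A) :
    (M hc h3 2 j ^ n) a = T x (2 * n) (n * j + 2 * n * (n - 1)) a := by
  induction n generalizing a with
  | zero => simp [T_zero]
  | succ n ih =>
    rw [pow_succ, MulAut.mul_apply, ih, M_apply, T_T hc h3]
    have f1 : 2 * (n : ℤ) + 2 = 2 * ((n + 1 : ℕ) : ℤ) := by push_cast; ring
    have f2 : (n : ℤ) * j + 2 * n * (n - 1) + j + 2 * (n : ℤ) * 2 =
        ((n + 1 : ℕ) : ℤ) * j + 2 * ((n + 1 : ℕ) : ℤ) * (((n + 1 : ℕ) : ℤ) - 1) := by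
      push_cast; ring
    rw [f1, f2]

end

/-- JOB POW -/
theorem pow : StPow := by
  intro A _ E x _ hc h3 θ hθ
  refine ⟨M hc h3 2 (-2 * ((E : ℤ) - 1)), 1, ?_⟩
  ext a
  rw [one_pow, mul_one, M_pow, hθ]
  have e1 : (E : ℤ) * (-2 * ((E : ℤ) - 1)) + 2 * E * (E - 1) = 0 := by ring
  rw [e1]
  unfold T
  rw [zpow_zero, mul_one]
  have e2 : (2 : ℤ) * (E : ℤ) = ((2 * E : ℕ) : ℤ) := by push_cast; ring
  rw [e2, zpow_natCast]

end Pool.Agent.K7.H4.OP
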